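import Mathlib
import Pool.Agent.K3h96.IX.Main

/-!
# The noncommutative variational Hodge conjecture: the index of a set of points

Let `f : 𝒳 → S` be a smooth projective morphism of complex varieties, `S` smooth and connected, with
connected fibres, and let `X` be its generic fibre, over the field `k` of rational functions on `S`.
For a set `T` of points of `S` and `n ≥ 0` let `F.dim T n` be the dimension of the space
`F.secs T n` of the global sections of the local system `K^top ⊗ ℚ` of the fibre product of
`n + 1` copies of `𝒳` over `S` which are algebraic at all points of `T`. In Q1 for the
`S`-linear admissible subcategories of `D_perf` of this product and the point `0`, one has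
`T = {0}`. `cycRank ops (pw X n)` is the rank of the group of the algebraic cycles (of all
codimensions) on the product of `n + 1` copies of `X` modulo numerical equivalence. `powers W X` is the
cohomology of the powers of `X`, `Family` lists the well-known properties of sections and
algebraic classes which are used; nothing is assumed on `X`.

* The quotients `F.dim T n / cycRank ops (pw X n)` converge to an element `N T ≥ 1` of `ℕ ∪ {∞}`,
  the index of `T`.
* `N T = 1` if and only if all global sections, for all `S`-linear admissible subcategories of `D_perf`
  of all fibre powers of `𝒳`, which are algebraic at the points of `T` are algebraic at all points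
  (for `T = {0}`: Q1 for the point `0`, for all these categories), and homological and numerical
  equivalence agree on all powers of `X`.
* The index decreases with `T`; if it is finite and does not change then the sections which are
  algebraic at the points of `T` do not change.
* If the index is finite then homological and numerical equivalence agree on all powers of `X`, and
  there are at most `N T - 1` points such that all sections which are algebraic at the points of `T`
  and at these points are algebraic everywhere; and there are at most `N T - 1` sections, algebraic
  at the points of `T`, such that all sections which are algebraic at the points of `T` are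
  algebraic at any other point at which these `N T - 1` sections are. So Q1 for a point `0` with a
  finite index, and for all admissible subcategories of all fibre powers, can be tested with finitely
  many sections at finitely many points.
* Suppose that homological and numerical equivalence agree on all powers of `X`; this is known if the
  standard conjecture of Lefschetz type holds for `X`, for instance if `X` is a surface, a complete
  intersection, an abelian variety or a product of such varieties. If Q1 fails for the point `0` and
  one admissible subcategory of one fibre power of `𝒳`, then for `n → ∞` at most one half of the
  sections which are algebraic at `0` are algebraic everywhere. (So it is enough for Q1 for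
  the point `0` and all these categories to show that, for infinitely many `n`, more than `51 %` of
  the sections algebraic at `0` are algebraic everywhere.)

The proof uses the index theorem for systems of classes which are stable under algebraic
correspondences (files `Pool/Agent/Y129` and `Pool/Agent/Y133/Half` of the starting library, in
particular `stable_index`, `gap_index` and `exists_generators`), which is applied to the sections which
are algebraic at the points of `T`, for all `T` together.
-/

set_option autoImplicit false

open CategoryTheory AlgebraicGeometry Filter Topology

open scoped ENNReal

universe u v

namespace Pool.Agent.Results.MP_298761_ag.IndexOfPoints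

open Pool.Agent.H914 Pool.Agent.H914.VarClass Pool.Agent.H914.VarClass.Obj
  Pool.Agent.H914.WeilCohomology Pool.Agent.K3h96.IX
open Pool.Agent.Y129 (pw)
open Pool.Agent.Y133.Half (cycRank AtMostHalf)

variable {k : Type u} [Field k] {𝒱 : VarClass k} {ops : CycleOps 𝒱}
  {W : WeilCohomology.{u, v} ops} {X : 𝒱.Obj}

/-- **The index of a set of points.** -/
theorem result (F : Family (powers W X)) [Nontrivial (W.H X)] : ∃ N : Set F.B → ℕ∞,
    (∀ T, 1 ≤ N T ∧ Tendsto (fun n => (F.dim T n : ℝ≥0∞) / cycRank ops (pw X n)) atTop
      (𝓝 (N T : ℝ≥0∞))) ∧
    (∀ T, N T = 1 ↔ F.QOneAll T ∧ ∀ n, HomEqNum W (pw X n)) ∧
    (∀ T T', T ⊆ T' → N T' ≤ N T ∧
      (N T ≠ ⊤ → N T' = N T → ∀ n, F.secs T n = F.secs T' n)) ∧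
    (∀ T, N T ≠ ⊤ → (∀ n, HomEqNum W (pw X n)) ∧ F.FewPoints T (N T) ∧
      F.FewSections T (N T)) ∧
    (∀ T, (∀ n, HomEqNum W (pw X n)) → ¬ F.QOneAll T →
      AtMostHalf (F.dim Set.univ) (F.dim T)) :=
  main F

end Pool.Agent.Results.MP_298761_ag.IndexOfPoints
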