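import Mathlib
import Pool.Agent.K3h96.MV.Final

/-!
# The noncommutative variational Hodge conjecture for products with moving abelian schemes

Let `S` be a smooth connected complex variety with the fundamental group `Γ` and the universal
covering `B`. Let `A_1, …, A_n → S` be principally polarized abelian schemes (repetitions allowed),
`A` their fibre product, `Y → S` any smooth proper family and `𝒟 ⊂ D_perf(Y)` any `S`-linear
admissible subcategory.

The rational homology of the fibres of `A` is trivialized over `B`; the fibre of `A_i` over `b`
is given by its period matrix `A.Z i b` (`AbelianSchemes`). The rational cohomology `ℚ ^ v` of the fibres of `Y` is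
trivialized over `B`, the Hodge structure of `Y_b` is given by its Hodge operator (multiplication by
`p - q` on `H ^ (p, q)`); the cohomology of `A_b × Y_b` is `HAZ W v`. By the Chern character these are
the topological K-groups with rational coefficients (`K^top_0` and `K^top_1` together). `𝒟` is given
by the flat idempotent operator `P` on `ℚ ^ v` that is induced by its projection functor
(`LinearCat`): `K^top(𝒟_b) ⊗ ℚ` is its image, and the algebraic classes of `𝒟_b` (the image of
`K_0(𝒟_b) ⊗ ℚ`) are the images of the algebraic classes of `Y_b`; in the same way for
`D_perf(A) ⊠ 𝒟`, with `1 ⊗ P`. Since the projection functor has a kernel in `D_perf(Y ×_S Y)`, `P`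
commutes with the Hodge operators and preserves algebraic classes, as does `1 ⊗ P`. Of algebraic
cycles two more properties are used, the fields of `CycleSystem`: exterior products of
products of divisor classes on `A_b` with algebraic classes on `Y_b` are algebraic, and so are the
direct images on `Y_b` of the intersections of algebraic classes on `A_b × Y_b` with products of
divisor classes on `A_b`.

For a subgroup `H` of `Γ`, that is, a covering `S_H` of `S` (finite etale if the index is finite;
`S` itself for `H = ⊤`), `QOne ρ H` and `QOneA ρ H` are the statements of Q1 for the base
changes of `𝒟` and of `D_perf(A) ⊠ 𝒟` to `S_H`: global sections are the flat classes over `B` which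
are fixed by `H`. Such a section which is algebraic at one point is a Hodge class at all points (the
theorem of the fixed part, listed in the problem as known); so this is added to the hypotheses.

Suppose that `A` moves relative to `𝒟` (`MovesRelativeTo`): through each point of `B` there is a
connected complex manifold along which the Hodge structure of `K^top(𝒟)` is constant (that of the
rest of the cohomology of `Y` may vary) and each `A_i` is moving. This means that one of its
members is simple and one of its ranks (of `γ - 1` for a monodromy operator `γ` with
`(γ - 1) ^ 2 = 0`, of a derivative of the period matrix, or of the difference of two period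
matrices) is odd, or the centre of the endomorphism algebra is totally real and one of the ranks
is two or there are more than `(g - 1) ^ 2 / 8` moduli. For instance `S = S' × S''`, the `A_i` come
from `S'` and are moving, and `𝒟` comes from `S''`; or `𝒟` is any category over `S` with
`K^top(𝒟)` of Tate type, as the categories with full exceptional collections over the geometric
points, or with a constant Hodge structure, and the `A_i` are moving.

* **Q1 for `D_perf(A) ⊠ 𝒟` over `S_H` is equivalent to Q1 for `𝒟` over `S_H`**, if the flat
  combinations of products of divisor classes on the fibres of `A` are defined over `S_H`.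
* This is the case for a finite etale covering `S_H`; so **Q1 for `D_perf(A) ⊠ 𝒟` over all finite
  etale coverings of `S` is equivalent to Q1 for `𝒟` over all finite etale coverings of `S`**.
* If it is true for `𝒟`, or if the algebraic classes of `Y` are constant, for instance for
  `𝒟 = 𝒟₀ ⊠ D_perf(S)` with any admissible subcategory `𝒟₀ ⊂ D_perf(Y₀)`, then **Q1 is true for all
  `S`-linear admissible subcategories of `D_perf(A) ⊠ 𝒟`** (over all finite etale coverings).
-/

set_option autoImplicit false

namespace Pool.Agent.Results.MP_298761_ag.ProductsWithMovingAbelianSchemes

open Pool.Agent.TH131.GHC Pool.Agent.TH504.VY Pool.Agent.K3h96.MV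

/-- **Q1 for `D_perf(A) ⊠ 𝒟` is equivalent to Q1 for `𝒟`**, for products `A` of abelian schemes
which move relative to the linear category `𝒟`. -/
theorem result {B : Type} [Nonempty B] (A : AbelianSchemes B) {v : ℕ} {Y : B → Coh v}
    {C : CycleSystem A.per v} (D : LinearCat C Y) (hmov : A.MovesRelativeTo D)
    {Γ : Type} [Group Γ] (ρ : Monodromy Γ A.Hom v) :
    (∀ H : Subgroup Γ, DefinedOver A.per ρ H → (D.QOneA ρ H ↔ D.QOne ρ H)) ∧
    ((∃ H₀ : Subgroup Γ, H₀.FiniteIndex ∧ DefinedOver A.per ρ H₀) →
      (D.QOneACoverings ρ ↔ D.QOneCoverings ρ) ∧
      ((D.QOneCoverings ρ ∨ ∀ b b', C.algY b = C.algY b') →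
        ∀ E : D.Sub, E.QOneCoverings ρ)) :=
  main' A D hmov ρ

end Pool.Agent.Results.MP_298761_ag.ProductsWithMovingAbelianSchemes
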