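import Mathlib
import Pool.Agent.K3h96.VH.Main

/-!
# The noncommutative variational Hodge conjecture for products with nodal families

Let `S` be a smooth connected complex variety. In the statement `S` is its fundamental groupoid: the
objects are the points and the morphisms are the homotopy classes of paths. A smooth projective
family over `S` (`Family`) is given by its fibres (actual smooth proper varieties) and by the parallel
transports between the cohomology algebras of the fibres along the paths, which preserve the degrees
and the orientations. `W` is an arbitrary Weil cohomology theory; for Q1 one takes the cohomology of
the complex points with coefficients in `W.K = ℚ`.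

An `S`-linear admissible subcategory `𝒟 ⊂ D_perf(Z)` (`LinearCat`) is given by the family `Z` and
the idempotent operators `P s` on the cohomology of the fibres `Z_s` (which is `K^top(Z_s) ⊗ ℚ`, by
the Chern character) that are induced by the projection functors onto `𝒟_s`; they commute with the
parallel transports and preserve the algebraic classes, since the projection functors have kernels
in `D_perf(Z_s × Z_s)`. So `K^top(𝒟_s) ⊗ ℚ` (the sum of `K^top_0` and `K^top_1`) is the image of
`P s`, and the algebraic classes in it (the image of `K_0(𝒟_s) ⊗ ℚ`) are the images under `P s` of
the algebraic classes of `Z_s`. The statement of Q1 for `𝒟` over `S` is `LinearCat.QOne`, and the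
statement of Q1 for the base changes of `𝒟` to all finite etale coverings of `S` is
`LinearCat.QOneCoverings`, in terms of classes fixed by subgroups of finite index of the fundamental
groups: such a class in the fibre over `s` is the value at a point over `s` of a global section over
a finite etale covering, and the values of this section at all points of the covering are its
parallel transports along the paths.

Let `X_1, …, X_r` be families over `S` with the following properties (`NodalSystem`); `η` is a very
general point of `S`.

* On the powers of the fibre `X_{i,η}` homological and numerical equivalence coincide (over the
  complex numbers this follows from the standard conjecture of Lefschetz type for `X_{i,η}`), and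
  its transcendental cohomology `T_i`, the orthogonal complement of all algebraic classes, is in the
  middle degree. Both is true for complete intersections, for curves, for surfaces with
  irregularity zero, and so on.
* `T_i` is irreducible under all subgroups of finite index of the fundamental group.
* There is a loop which acts on `T_i` by a Picard-Lefschetz formula, for instance a loop around a
  divisor at which `X_i` acquires a node, and trivially on the cohomology of the other `X_j` over `η`
  and on the topological K-theory of `𝒟_η`, for instance because these have good reduction there.
  Nothing is assumed about the action of this loop on the rest of the cohomology of `Z`, outside of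
  `𝒟`, and nothing else is assumed about the monodromy and the Hodge structure of `𝒟`.

Then (with `n_i + 1 < dim T_i` if the dimension of `X_i` is even, see `Tower`)

* **Q1 for `D_perf(X_1 ^ (n_1 + 1)) ⊠ ⋯ ⊠ D_perf(X_r ^ (n_r + 1)) ⊠ 𝒟`, over all finite etale
  coverings of `S`, is equivalent to Q1 for `𝒟`, over all finite etale coverings of `S`;**
* the same is true over `S` alone, if the fundamental group acts trivially on the algebraic classes
  of the powers of the `X_i` over `η`;
* if Q1 is true for `𝒟` over all finite etale coverings, it is true for all `S`-linear admissible
  subcategories of the product with `𝒟`; in particular (`𝒟 = D_perf(S)`) it is true for all `S`-linear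
  admissible subcategories of `D_perf(X_1 ^ (n_1 + 1) × ⋯ × X_r ^ (n_r + 1))`.

The point `η` is used only in the hypotheses: Q1 concerns all points, in particular the points at
which there are more algebraic classes than over `η`.
-/

set_option autoImplicit false

namespace Pool.Agent.Results.MP_298761_ag.ProductsWithNodalFamilies

open CategoryTheory AlgebraicGeometry Pool.Agent.H914 Pool.Agent.H914.VarClass
  Pool.Agent.K3h96.VH

universe u v w w'

/-- **Q1 for the product of a linear category with powers of nodal families is equivalent to Q1 for
the linear category.** -/
theorem result {k : Type u} [Field k] {𝒱 : VarClass k} {ops : CycleOps 𝒱}
    {W : WeilCohomology.{u, v} ops} {S : Type w} [Groupoid.{w'} S] {ι : Type}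
    {X : ι → Family W S} {D : LinearCat W S} {η : S} (h : NodalSystem X D η)
    {T : Set ι} {D' : LinearCat W S} (hD' : Tower X D η T D') :
    (D'.QOneCoverings ↔ D.QOneCoverings) ∧
    ((∀ i m Y, IsPower (X i) m Y → Y.TrivialOnCycles η) → (D'.QOne ↔ D.QOne)) ∧
    ((D.QOneCoverings ∨ ∀ s, (D.fam.fib s).dim = 0) →
      ∀ E, IsSubcategory D' E → E.QOneCoverings ∧ E.QOne) :=
  h.main hD'

end Pool.Agent.Results.MP_298761_ag.ProductsWithNodalFamilies
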